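import Pool.Agent.LSG.StmtsE

/-!
# Squad LPR (MP_005a41_gt): spaces which are locally a product with an interval

THEOREM (`FinStmt`).  Let `X` be a metrizable space in which every point has a neighbourhood homeomorphic to
`S × [0, 1]` for some space `S`.  Then `X` is S-stable and l-stable.  So are all metrizable spaces with a
continuous action of `ℝ` without fixed points, in particular all metrizable groups (precompact or not) with a
nontrivial one-parameter subgroup.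

IDEA.  `Fo O` = continuous functions which vanish off `O`, `Sg O` = null sequences of such functions.  `O` is
stable (`Stb O`) if `Sg O` is complemented in `Fo O`.  (1) open subsets of `S × [0, 1]` are stable (rows HAT BAT CHI SLT RE1
REI REP REQ REL), (2) unions of two, (3) disjoint locally finite unions, (4) Michael's local to global lemma.

RULES.  One file per row: `Pool/Agent/HelperNN_LPR/XXX.lean`, import `Pool.Agent.LPR.Stmts`, namespace `Pool.Agent.LPR.HNN`,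
`open Pool.Agent.LSG Pool.Agent.LPR`, theorem `xxx (the rows used, as hypotheses, in the order of uses) : XxxStmt`.
Never `convert`, `congr!`, straight double quotes.
-/

set_option autoImplicit false

open Set Topology
open scoped BigOperators

namespace Pool.Agent.LPR

open Pool.Agent.LSG

/-- the continuous functions on `X` which vanish off `O` -/
def Fo {X : Type} [TopologicalSpace X] (O : Set X) : Submodule ℝ (X → ℝ) where
  carrier := {f | Continuous f ∧ ∀ x, x ∉ O → f x = 0}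
  add_mem' := by
    rintro f g ⟨hf, hf0⟩ ⟨hg, hg0⟩
    exact ⟨Continuous.add hf hg, fun x hx => by simp [hf0 x hx, hg0 x hx]⟩
  zero_mem' := ⟨continuous_const, fun _ _ => rfl⟩
  smul_mem' := by
    rintro c f ⟨hf, hf0⟩
    exact ⟨Continuous.const_smul hf c, fun x hx => by simp [hf0 x hx]⟩

/-- the null sequences of `Fo O`: continuous functions on `X × OnePoint ℕ` which vanish off `O × OnePoint ℕ` and on
`X × {∞}` -/
def Sg {X : Type} [TopologicalSpace X] (O : Set X) : Submodule ℝ (X × OnePoint ℕ → ℝ) where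
  carrier := {f | Continuous f ∧ (∀ x, x ∉ O → ∀ n, f (x, n) = 0) ∧
    ∀ x, f (x, OnePoint.infty) = 0}
  add_mem' := by
    rintro f g ⟨hf, hf0, hf1⟩ ⟨hg, hg0, hg1⟩
    exact ⟨Continuous.add hf hg, fun x hx n => by simp [hf0 x hx n, hg0 x hx n],
      fun x => by simp [hf1, hg1]⟩
  zero_mem' := ⟨continuous_const, fun _ _ _ => rfl, fun _ => rfl⟩
  smul_mem' := by
    rintro c f ⟨hf, hf0, hf1⟩
    exact ⟨Continuous.const_smul hf c, fun x hx n => by simp [hf0 x hx n], fun x => by simp [hf1]⟩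

/-- `O` is stable: the null sequences are a complemented subspace -/
def Stb {X : Type} [TopologicalSpace X] (O : Set X) : Prop := Compl ↥(Sg O) ↥(Fo O)

/-- every point has a neighbourhood homeomorphic to some `S × [0, 1]` -/
def LocInt (X : Type) [TopologicalSpace X] : Prop :=
  ∀ x : X, ∃ N ∈ 𝓝 x, ∃ (S : Type) (_ : TopologicalSpace S), Nonempty (↥N ≃ₜ S × unitInterval)

/-! ## Block A: algebra, unions, the local to global lemma -/

/-- **ALG** (easy-medium).  Four facts on complemented subspaces (all spaces are topological vector spaces).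
PROOF. If `p (i x) = x` (`i : F → E`, `p : E → F`) then `E ≃L F × ker p` (`y ↦ (p y, y - i (p y))`; see the proofs of PEL in
`Pool/Agent/Helper*_LSG/PEL.lean`).  (1) `E ≃ T × Z ≃ (T × T) × Z ≃ T × E ≃ E × T`.  (2) `E ≃ F × Z ≃ (F × T) × Z ≃ E × T`.
(3) compose.  (4) `E ≃ E × T₁ ≃ (E × T₂) × T₁`; inclusion and projection. -/
def AlgStmt : Prop :=
  ∀ (E F T T' : Type) [AddCommGroup E] [Module ℝ E] [TopologicalSpace E] [IsTopologicalAddGroup E]
    [ContinuousSMul ℝ E] [AddCommGroup F] [Module ℝ F] [TopologicalSpace F]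
    [IsTopologicalAddGroup F] [ContinuousSMul ℝ F] [AddCommGroup T] [Module ℝ T]
    [TopologicalSpace T] [IsTopologicalAddGroup T] [ContinuousSMul ℝ T] [AddCommGroup T']
    [Module ℝ T'] [TopologicalSpace T'] [IsTopologicalAddGroup T'] [ContinuousSMul ℝ T'],
    (Compl T E → Nonempty (T ≃L[ℝ] (T × T)) → Nonempty (E ≃L[ℝ] (E × T))) ∧
    (Compl F E → Nonempty (F ≃L[ℝ] (F × T)) → Nonempty (E ≃L[ℝ] (E × T))) ∧
    (Compl T F → Compl F E → Compl T E) ∧
    (Nonempty (E ≃L[ℝ] (E × T)) → Nonempty (E ≃L[ℝ] (E × T')) → Compl (T × T') E)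

/-- **SGS** (easy-medium; edit of the row CZE, part (3): `Pool/Agent/Helper*_LSG/CZE.lean`).  Splitting a null sequence into the even and the
odd terms; and the sequences for `O = univ`.
PROOF. (1) `f ↦ ((x, n) ↦ f (x, 2 n), (x, n) ↦ f (x, 2 n + 1))`.  (2), (3): for `O = univ` the conditions `x ∉ O → ...` are
void; the identity. -/
def SgsStmt : Prop := ∀ (X : Type) [TopologicalSpace X],
  (∀ O : Set X, Nonempty (↥(Sg O) ≃L[ℝ] (↥(Sg O) × ↥(Sg O)))) ∧
  Nonempty (↥(Fo (Set.univ : Set X)) ≃L[ℝ] ↥(Cp X)) ∧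
  Nonempty (↥(Sg (Set.univ : Set X)) ≃L[ℝ] ↥(Cz X))

/-- **SUB** (easy-medium; uses DUG).  Smaller open sets.
PROOF. `A = O₁ᶜ` is closed; `e : Cp A → Cp X` from DUG (`LEmc A`).  `i` = inclusion (`O₁ ⊆ O`), `p f = f - e (f|A)`: it vanishes on `A`.
`p f = f` if `f ∈ Fo O₁` (`f|A = 0`).  (The restriction of `f` to the subtype `A` is in `Cp A`.) -/
def SubStmt : Prop := ∀ (X : Type) [TopologicalSpace X] [TopologicalSpace.MetrizableSpace X]
  (O₁ O : Set X), IsOpen O₁ → O₁ ⊆ O → Compl ↥(Fo O₁) ↥(Fo O)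

/-- **PU2** (easy-medium).  A partition of unity for two open sets.
PROOF. Let `u₁, u₂ : X → ℝ` be continuous, `≥ 0`, `u_i x ≠ 0 ↔ x ∈ O_i` (a metric and `infDist x (O_i)ᶜ`; constant 1 if `O_i = univ`), `χ_i = u_i / (u₁ + u₂)` on
`O₁ ∪ O₂`, 0 off it.  `i F = (χ₁ F, χ₂ F)`: `χ_i F` is continuous on `O × OnePoint ℕ` (open), and at the other points because
`|χ_i F| ≤ |F|` and `F = 0` there; it vanishes off `O_i`.  `p (G₁, G₂) = G₁ + G₂`.  `p (i F) = F`.  Every value depends on one value. -/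
def Pu2Stmt : Prop := ∀ (X : Type) [TopologicalSpace X] [TopologicalSpace.MetrizableSpace X]
  (O₁ O₂ : Set X), IsOpen O₁ → IsOpen O₂ → Compl ↥(Sg (O₁ ∪ O₂)) (↥(Sg O₁) × ↥(Sg O₂))

/-- **UNI** (easy; uses ALG SGS SUB PU2).  The union of two stable open sets is stable.
PROOF. `E = Fo (O₁ ∪ O₂)`, `F_i = Fo O_i`, `T_i = Sg O_i`.  ALG (1) with SGS: `F_i ≃ F_i × T_i`.  SUB: `Compl F_i E`; ALG (2): `E ≃ E × T_i`; ALG (4):
`Compl (T₁ × T₂) E`; PU2 and ALG (3): `Compl (Sg (O₁ ∪ O₂)) E`. -/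
def UniStmt : Prop := ∀ (X : Type) [TopologicalSpace X] [TopologicalSpace.MetrizableSpace X]
  (O₁ O₂ : Set X), IsOpen O₁ → IsOpen O₂ → Stb O₁ → Stb O₂ → Stb (O₁ ∪ O₂)

/-- **DJU** (medium).  Disjoint locally finite unions.
PROOF. Let `i_j : Sg (O j) → Fo (O j)`, `p_j` be the maps.  For `F ∈ Sg O` (`O = ⋃ O j`) the function `F_j` = `F` on `O j × OnePoint ℕ` and 0 elsewhere is in `Sg (O j)`: a point
`x` which is not in `O j` is either in another `O l` (open, disjoint from `O j`: 0 near `x`), or not in `O`: there `F (x, n) = 0` and `|F_j| ≤ |F|`.  `i F x = ∑ᶠ j, (i_j F_j) x` (at most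
one summand is not 0; continuous because `O` is locally finite: `continuous_finsum`), `p g y = ∑ᶠ j, (p_j g_j) y`, `g_j` = `g` on `O j` and 0 elsewhere.  `(i F)_j = i_j F_j`, so `p (i F) = F`.
Linear; for fixed `x` only the `j` with `x ∈ O j` matters, so continuous for the pointwise topologies. -/
def DjuStmt : Prop := ∀ (X I : Type) [TopologicalSpace X] (O : I → Set X), (∀ i, IsOpen (O i)) →
  (∀ i j, i ≠ j → Disjoint (O i) (O j)) → LocallyFinite O → (∀ i, Stb (O i)) → Stb (⋃ i, O i)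

/-- **MIC** (medium; uses STO).  Michael's local to global lemma.
PROOF. Choose `U x ∋ x` open with `P (U x)`.  STO with `Q = X`, `I = X`: `ψ c x`.  `G c = ⋃ x, {q | ψ c x q ≠ 0}` is open and has `P` (first the hereditary property, then disjoint
locally finite unions).  `s c q = ∑ᶠ x, ψ c x q` (at most one summand is not 0; continuous, locally finite), `{s c ≠ 0} = G c`; the `G c` are a locally finite
cover.  `T = ∑ᶠ c, s c > 0`, `h = (∑ᶠ c, c * s c) / T`, continuous, `h ≥ 0`; if `h q < n + 1` then `q ∈ G c` for some `c ≤ n` (otherwise all the `c` with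
`s c q ≠ 0` are `≥ n + 1`).  For `k : ℕ` let `D k = {q | k - 1 < h q ∧ h q < k + 1}`: open, contained in `⋃ c ≤ k, G c`, so `P (D k)` (finite unions, the hereditary property; `P ∅` from
the third hypothesis with the empty index type).  The `D (2 j)` are pairwise disjoint and locally finite (`h` continuous), the same for `D (2 j + 1)`: `P` holds for both unions, and their union is
everything. -/
def MicStmt : Prop := ∀ (X : Type) [TopologicalSpace X] [TopologicalSpace.MetrizableSpace X]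
  (P : Set X → Prop), (∀ O O' : Set X, IsOpen O → P O → O' ⊆ O → IsOpen O' → P O') →
  (∀ O O' : Set X, IsOpen O → IsOpen O' → P O → P O' → P (O ∪ O')) →
  (∀ (I : Type) (O : I → Set X), (∀ i, IsOpen (O i)) → (∀ i j, i ≠ j → Disjoint (O i) (O j)) →
    LocallyFinite O → (∀ i, P (O i)) → P (⋃ i, O i)) →
  (∀ x, ∃ O, IsOpen O ∧ x ∈ O ∧ P O) → P Set.univ

/-- **LGL** (easy; uses UNI DJU MIC).  Hereditarily stable neighbourhoods suffice.
PROOF. MIC with `P O = ∀ O' ⊆ O, IsOpen O' → Stb O'`.  Unions: `O' = (O' ∩ O₁) ∪ (O' ∩ O₂)`, UNI; disjoint unions: `O' = ⋃ i, O' ∩ O i`, DJU. -/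
def LglStmt : Prop := ∀ (X : Type) [TopologicalSpace X] [TopologicalSpace.MetrizableSpace X],
  (∀ x : X, ∃ O : Set X, IsOpen O ∧ x ∈ O ∧ ∀ O' : Set X, O' ⊆ O → IsOpen O' → Stb O') →
  Stb (Set.univ : Set X)

/-! ## Block B: open subsets of `S × [0, 1]` are stable -/

/-- the centre of the piece `k` of scale `m`: an odd multiple of `2 ^ (- m - 5)` -/
noncomputable def sg (m k : ℕ) : ℝ := (2 * (k : ℝ) + 1) / 2 ^ (m + 5)

/-- projection to the interval -/
noncomputable def pt (t : ℝ) : unitInterval := Set.projIcc 0 1 zero_le_one t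

/-- **HAT** (easy-medium).  A partition in the scale.
PROOF. `hat x = max 0 (1 - |x|)`, `θ r = - log r / log 2` (`≥ 0` for `0 < r ≤ 1`), `h m r = sqrt (hat (θ r - m))` for `r > 0`, 0 for `r ≤ 0`.  Continuous: off 0 clear, and `h m r = 0` for
`r < 2^(-m-1)`.  `h m r ≠ 0` iff `r > 0` and `|θ r - m| < 1`.  `j = ⌊θ r⌋₊`: `hat (θ r - j) + hat (θ r - j - 1) = 1`. -/
def HatStmt : Prop := ∃ h : ℕ → C(ℝ, ℝ), (∀ m r, 0 ≤ h m r ∧ h m r ≤ 1) ∧
  (∀ m r, h m r ≠ 0 → (1 / 2 : ℝ) ^ (m + 1) < r ∧ r < 2 * (1 / 2 : ℝ) ^ m) ∧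
  ∀ r : ℝ, 0 < r → r ≤ 1 → ∃ j : ℕ, (∀ m, h m r ≠ 0 → m = j ∨ m = j + 1) ∧
    (h j r) ^ 2 + (h (j + 1) r) ^ 2 = 1

/-- **BAT** (easy-medium).  A partition of `[0, 1]` at scale `m`.
PROOF. `K = 2 ^ (m + 4)` centres `sg m k`, `k < K`, at distance `2 ^ (-m-4)`, the first is `2 ^ (-m-5)`, the last `1 - 2 ^ (-m-5)`.  `c t = max (sg m 0) (min (sg m (K-1)) t)`,
`B m k t = sqrt (hat ((c t - sg m k) * 2 ^ (m + 4)))` for `k < K`, 0 for `k ≥ K`.  If it is not 0: `|c t - sg m k| < 2 ^ (-m-4)` and `|c t - t| ≤ 2 ^ (-m-5)` for `t ∈ [0, 1]`.  `j` = the integer part of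
`(c t - sg m 0) * 2 ^ (m + 4)` (`0 ≤ j ≤ K - 1`; for `j = K - 1` the value is exactly `K - 1`, `B m j t = 1`). -/
def BatStmt : Prop := ∃ B : ℕ → ℕ → C(ℝ, ℝ), (∀ m k t, 0 ≤ B m k t ∧ B m k t ≤ 1) ∧
  (∀ m k t, 0 ≤ t → t ≤ 1 → B m k t ≠ 0 → k < 2 ^ (m + 4) ∧ |t - sg m k| < (1 / 2 : ℝ) ^ (m + 3)) ∧
  ∀ m t, 0 ≤ t → t ≤ 1 → ∃ j : ℕ, (∀ k, B m k t ≠ 0 → k = j ∨ k = j + 1) ∧
    (B m j t) ^ 2 + (B m (j + 1) t) ^ 2 = 1

/-- The pieces for the open set `O`: `ρ` is comparable to the distance to the complement, `χ m k` is a partition (squares) of `O`, the piece `(m, k)`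
lives where `ρ` is about `2 ^ (-m)` and the second coordinate is near `sg m k`. -/
structure Parti {S : Type} [TopologicalSpace S] (O : Set (S × unitInterval))
    (ρ : C(S × unitInterval, ℝ)) (χ : ℕ → ℕ → C(S × unitInterval, ℝ)) : Prop where
  nonneg : ∀ x, 0 ≤ ρ x
  zero : ∀ x, ρ x ≠ 0 ↔ x ∈ O
  lip : ∀ (s : S) (t t' : unitInterval), |ρ (s, t) - ρ (s, t')| ≤ |(t : ℝ) - t'|
  chi01 : ∀ m k x, 0 ≤ χ m k x ∧ χ m k x ≤ 1
  supp : ∀ m k x, χ m k x ≠ 0 → k < 2 ^ (m + 4) ∧ (1 / 2 : ℝ) ^ (m + 1) < ρ x ∧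
    ρ x < 2 * (1 / 2 : ℝ) ^ m ∧ |(x.2 : ℝ) - sg m k| < (1 / 2 : ℝ) ^ (m + 3)
  cover : ∀ x ∈ O, ∃ T : Finset (ℕ × ℕ), T.card ≤ 4 ∧ (∀ m k, χ m k x ≠ 0 → (m, k) ∈ T) ∧
    ∑ α ∈ T, (χ α.1 α.2 x) ^ 2 = 1

/-- **CHI** (medium; uses HAT BAT).  Existence of the pieces.
PROOF. A metric of `S` (`TopologicalSpace.metrizableSpaceMetric`); `S × unitInterval` has the maximum metric, so `dist (s, t) (s, t') = |t - t'|`.  `ρ x = min 1 (infDist x Oᶜ)` (constant 1 if `O = univ`).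
`χ m k x = h m (ρ x) * B m k x.2`.  `T` = the products of `{j, j + 1}` (HAT for `ρ x`) and, for each of these two `m`, `{j', j' + 1}` (BAT for `m`, `x.2`). -/
def ChiStmt : Prop := ∀ (S : Type) [TopologicalSpace S] [TopologicalSpace.MetrizableSpace S]
  (O : Set (S × unitInterval)), IsOpen O → ∃ ρ χ, Parti O ρ χ

/-- The slots: the slot `n` of the piece `(m, k)` is the interval `[a, b]`, just to the right of `sg m k`; `w` is 1 on it; slots of neighbouring scales are disjoint. -/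
structure Slots (a b : ℕ → ℕ → ℕ → ℝ) (w : ℕ → ℕ → ℕ → C(ℝ, ℝ)) : Prop where
  ord : ∀ m k n, sg m k < a m k n ∧ a m k n < b m k n
  bd : ∀ m k n, b m k n < sg m k + (1 / 2 : ℝ) ^ (m + 12) / (n + 1)
  w01 : ∀ m k n t, 0 ≤ w m k n t ∧ w m k n t ≤ 1
  one : ∀ m k n t, a m k n ≤ t → t ≤ b m k n → w m k n t = 1
  supp : ∀ m k n t, w m k n t ≠ 0 → sg m k < t ∧ t < sg m k + (1 / 2 : ℝ) ^ (m + 12) / (n + 1)
  inj : ∀ m k n n' t, w m k n t ≠ 0 → w m k n' t ≠ 0 → n = n'
  sep : ∀ m k m' k', (m, k) ≠ (m', k') → m ≤ m' + 4 → m' ≤ m + 4 →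
    (1 / 2 : ℝ) ^ (m + 12) + (1 / 2 : ℝ) ^ (m' + 12) < |sg m k - sg m' k'|

/-- **SLT** (easy-medium).  Existence of the slots.
PROOF. `ε = 2 ^ (-m-12)`.  `a = sg m k + ε u₁`, `b = sg m k + ε u₂` with `1/(n+2) < u₀ < u₁ < u₂ < u₃ < 1/(n+1)` (quarter points), `w` = a trapezoid, 1 on `[a, b]`, 0 off `(sg + ε u₀, sg + ε u₃)`, for example
`max 0 (min 1 (min ((t - α)/(a - α)) ((β - t)/(β - b))))`.  Different `n`: disjoint intervals.  `sep`: for `m < m'` `|sg m k - sg m' k'| = |(2k+1) 2^(m'-m) - (2k'+1)| / 2^(m'+5) ≥ 2^(-m'-5)` (even minus odd), for `m = m'`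
`≥ 2 * 2^(-m-5)`; and `2^(-max-5) ≥ 2^(-min-9) > 2 * 2^(-min-12)`. -/
def SltStmt : Prop := ∃ a b w, Slots a b w

/-- **RE1** (easy-medium).  Slots which are used at the same point are equal.
PROOF. Let `χ m k (s, u) ≠ 0` and `|t - sg m k| < 2 ^ (-m-12)`, `t ∈ [0, 1]`: `|t - u| < 2 ^ (-m-12) + 2 ^ (-m-3) < 2 ^ (-m-2)`, so by `lip` `2 ^ (-m-2) < ρ (s, t) < 2 ^ (-m+2)`.  The same for `m'`: so
`m ≤ m' + 3`, `m' ≤ m + 3`.  Now `sep` gives `(m, k) = (m', k')` if both `w` are not 0 at `t` (`|sg m k - sg m' k'| < 2^(-m-12) + 2^(-m'-12)`), and then `inj` gives `n = n'`.  (2): `t = sg m k`: the same bounds (`|sg m k - u| < 2 ^ (-m-3)`);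
`w m' k' n' (sg m k) ≠ 0` gives `0 < sg m k - sg m' k' < 2 ^ (-m'-12)`: `(m, k) ≠ (m', k')` and against `sep`. -/
def Re1Stmt : Prop := ∀ (S : Type) [TopologicalSpace S] (O : Set (S × unitInterval))
  (ρ : C(S × unitInterval, ℝ)) (χ : ℕ → ℕ → C(S × unitInterval, ℝ)) (a b : ℕ → ℕ → ℕ → ℝ)
  (w : ℕ → ℕ → ℕ → C(ℝ, ℝ)), Parti O ρ χ → Slots a b w →
  (∀ (s : S) (t u u' : unitInterval) (m k n m' k' n' : ℕ), w m k n t ≠ 0 → χ m k (s, u) ≠ 0 →
    w m' k' n' t ≠ 0 → χ m' k' (s, u') ≠ 0 → m = m' ∧ k = k' ∧ n = n') ∧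
  (∀ (s : S) (u u' : unitInterval) (m k m' k' n' : ℕ), χ m k (s, u) ≠ 0 →
    w m' k' n' (sg m k) ≠ 0 → χ m' k' (s, u') ≠ 0 → False) ∧
  ∀ (s : S) (t u : unitInterval) (m k n : ℕ), w m k n t ≠ 0 → χ m k (s, u) ≠ 0 →
    |(t : ℝ) - u| < (1 / 2 : ℝ) ^ (m + 2) ∧ (1 / 2 : ℝ) ^ (m + 2) < ρ (s, t) ∧
      ρ (s, t) < 4 * (1 / 2 : ℝ) ^ m

/-- the embedding: the piece `(m, k)` of the function number `n` is moved to the slot `(m, k, n)` -/
noncomputable def imap {S : Type} [TopologicalSpace S] (a b : ℕ → ℕ → ℕ → ℝ)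
    (w : ℕ → ℕ → ℕ → C(ℝ, ℝ)) (χ : ℕ → ℕ → C(S × unitInterval, ℝ))
    (F : (S × unitInterval) × OnePoint ℕ → ℝ) (x : S × unitInterval) : ℝ :=
  ∑ᶠ α : ℕ × ℕ × ℕ, w α.1 α.2.1 α.2.2 (x.2 : ℝ) *
    (χ α.1 α.2.1 (x.1, pt (((x.2 : ℝ) - a α.1 α.2.1 α.2.2) /
        (b α.1 α.2.1 α.2.2 - a α.1 α.2.1 α.2.2))) *
      F ((x.1, pt (((x.2 : ℝ) - a α.1 α.2.1 α.2.2) / (b α.1 α.2.1 α.2.2 - a α.1 α.2.1 α.2.2))),
        ((α.2.2 : ℕ) : OnePoint ℕ)))

/-- the `n`-th function of the projection -/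
noncomputable def pmap {S : Type} [TopologicalSpace S] (a b : ℕ → ℕ → ℕ → ℝ)
    (χ : ℕ → ℕ → C(S × unitInterval, ℝ)) (g : S × unitInterval → ℝ) (n : ℕ)
    (x : S × unitInterval) : ℝ :=
  ∑ᶠ α : ℕ × ℕ, χ α.1 α.2 x *
    (g (x.1, pt (a α.1 α.2 n + (x.2 : ℝ) * (b α.1 α.2 n - a α.1 α.2 n))) -
      g (x.1, pt (sg α.1 α.2)))

/-- **REI** (medium-strong; uses RE1).  The embedding.
PROOF. By RE1 at every `x` at most one term is not 0.  (A) `x₀ ∉ O`: `ρ x₀ = 0`, so all terms at `x₀` are 0 (third part of RE1).  Let `ε > 0`; `F` is continuous and 0 on `{x₀} × OnePoint ℕ` (compact): there is a neighbourhood `W` of `x₀`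
with `|F (y, n)| < ε` for `y ∈ W` and all `n`.  For `x = (s, t)` near `x₀` a nonzero term has `2 ^ (-m-2) < ρ x` small, so `m` is large and the point `(s, u)` is near `x` (third part of RE1): `(s, u) ∈ W`, `|imap F x| ≤ ε`.
(B) `x₀ ∈ O`: in the neighbourhood `{ρ x > ρ x₀ / 2}` only finitely many `(m, k)` occur (third part of RE1, `k < 2 ^ (m + 4)`).  For fixed `(m, k)` the sum over `n` is continuous: at the points with
`t ≠ sg m k` it is locally finite (`Slots.supp`; the support of `w m k n` is in `(sg, sg + ε/(n+1))`); at `(s₀, t₀)` with `t₀ = sg m k` it is 0, and for `x` near it only large `n` occur, `|F ((s, u), n)| < ε` for `s` near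
`s₀`, all `u ∈ [0, 1]`, `n ≥ n₀` (tube lemma: `F = 0` on the compact set `{s₀} × [0, 1] × {∞}`).  `imap F` vanishes off `O` by (A). -/
def ReiStmt : Prop := ∀ (S : Type) [TopologicalSpace S] (O : Set (S × unitInterval))
  (ρ : C(S × unitInterval, ℝ)) (χ : ℕ → ℕ → C(S × unitInterval, ℝ)) (a b : ℕ → ℕ → ℕ → ℝ)
  (w : ℕ → ℕ → ℕ → C(ℝ, ℝ)), Parti O ρ χ → Slots a b w →
  ∀ F ∈ Sg O, imap a b w χ F ∈ Fo O

/-- **REP** (medium).  The projection.
PROOF. `D (m,k) n (s, t) = g (s, a + t (b - a)) - g (s, sg)` tends to 0 for `n → ∞`, uniformly in `t` and locally uniformly in `s` (`a, b → sg m k` by `Slots`; `g` continuous, tube lemma), so it is a continuous function of `((s, t), n)` with the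
value 0 at `n = ∞`.  At `x₀ ∈ O`: near `x₀` `ρ > ρ x₀ / 2`, so only finitely many `(m, k)` have `χ m k x ≠ 0`: finite sum.  At `x₀ ∉ O`: the value is 0; for `x` near `x₀` and `χ m k x ≠ 0`, `m` is large, and the points
`(s, a + t (b - a))`, `(s, sg m k)` are within `2 ^ (-m-2)` of `x = (s, t)`, so near `x₀`, where `|g| < ε`: the sum has at most 4 terms (`Parti.cover`; it is 0 if `x ∉ O`), so it is at most `8 ε`. -/
def RepStmt : Prop := ∀ (S : Type) [TopologicalSpace S] (O : Set (S × unitInterval))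
  (ρ : C(S × unitInterval, ℝ)) (χ : ℕ → ℕ → C(S × unitInterval, ℝ)) (a b : ℕ → ℕ → ℕ → ℝ)
  (w : ℕ → ℕ → ℕ → C(ℝ, ℝ)), Parti O ρ χ → Slots a b w →
  ∀ g ∈ Fo O, ∃ G ∈ Sg O, ∀ (x : S × unitInterval) (n : ℕ), G (x, (n : OnePoint ℕ)) = pmap a b χ g n x

/-- **REQ** (easy-medium; uses RE1).  The projection is a left inverse of the embedding.
PROOF. Let `χ m k x ≠ 0`, `x = (s, t)` (otherwise the summand is 0; `k < 2 ^ (m + 4)`, so `sg m k`, `a m k n`, `b m k n` are in `[0, 1]` and `pt` is the identity there).  `imap F (s, sg m k) = 0`: a nonzero term contradicts RE1 (2).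
`imap F (s, a + t (b - a))`: the term `(m, k, n)` has `w = 1`, its point is `(s, t)`, so it is `χ m k x * F (x, n)`; all others are 0 by RE1 (1).  So `pmap (imap F) n x = ∑ᶠ α, (χ α x) ^ 2 * F (x, n) = F (x, n)` for `x ∈ O` (`Parti.cover`);
for `x ∉ O` both are 0. -/
def ReqStmt : Prop := ∀ (S : Type) [TopologicalSpace S] (O : Set (S × unitInterval))
  (ρ : C(S × unitInterval, ℝ)) (χ : ℕ → ℕ → C(S × unitInterval, ℝ)) (a b : ℕ → ℕ → ℕ → ℝ)
  (w : ℕ → ℕ → ℕ → C(ℝ, ℝ)), Parti O ρ χ → Slots a b w →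
  ∀ F ∈ Sg O, ∀ (x : S × unitInterval) (n : ℕ),
    pmap a b χ (imap a b w χ F) n x = F (x, (n : OnePoint ℕ))

/-- **REL** (medium; uses CHI SLT RE1 REI REP REQ).  Open subsets of `S × [0, 1]` are stable.
PROOF. `i F = imap F`, `p g` = the function `G` of REP (unique: its values at `n` and at `∞`).  Linear: at every point the sums have finitely many nonzero terms, independent of the functions (RE1: at most one `α` with
`w ≠ 0` and `χ ≠ 0`; `Parti.cover`, or `χ = 0` off `O`).  Continuous for the pointwise topologies: every value depends on finitely many values.  `p (i F) = F` by REQ. -/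
def RelStmt : Prop := ∀ (S : Type) [TopologicalSpace S] [TopologicalSpace.MetrizableSpace S]
  (O : Set (S × unitInterval)), IsOpen O → Stb O

/-! ## Block C: the theorems -/

/-- **LOC** (medium).  Transport to the chart.
PROOF. `O' = e '' (Subtype.val ⁻¹' O)`, open.  `f ∈ Fo O ↦ f ∘ Subtype.val ∘ e.symm`, which vanishes off `O'`.  Inverse: `g ↦` the function equal to `g (e ⟨x, _⟩)` on `N` and 0 off `N`: it is
continuous on the closed set `closure O` (`⊆ N`) and 0 on the closed set `Oᶜ`, and these sets cover `X` (`continuous_iff_...` or `ContinuousOn.union_of_isClosed`, `Continuous.if`-like gluing).  The same with the factor `OnePoint ℕ`.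
Both are continuous for the pointwise topologies (every value is one value). -/
def LocStmt : Prop := ∀ (X S : Type) [TopologicalSpace X] [TopologicalSpace S] (N : Set X)
  (_ : ↥N ≃ₜ S × unitInterval) (O : Set X), IsOpen O → closure O ⊆ N →
  ∃ O' : Set (S × unitInterval), IsOpen O' ∧ Nonempty (↥(Fo O) ≃L[ℝ] ↥(Fo O')) ∧
    Nonempty (↥(Sg O) ≃L[ℝ] ↥(Sg O'))

/-- **LPS** (easy-medium; uses LGL REL LOC).  Locally products: everything is stable.
PROOF. LGL: let `x : X`, `N`, `S`, `e` from `LocInt`; `X` is regular: an open `O ∋ x` with `closure O ⊆ N`.  `S` is metrizable (`s ↦ e.symm (s, 0)` is an embedding of `S` into `N`).  For `O' ⊆ O` open: `closure O' ⊆ N`, LOC and REL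
(`Compl` is transported by the isomorphisms). -/
def LpsStmt : Prop := ∀ (X : Type) [TopologicalSpace X] [TopologicalSpace.MetrizableSpace X],
  LocInt X → Stb (Set.univ : Set X)

/-- **STB** (easy; uses ALG SGS CZE BRI).  From stable to S-stable.
PROOF. ALG (1) with `E = Fo univ`, `T = Sg univ` (SGS (1)): `Fo univ ≃ Fo univ × Sg univ`, so by SGS (2), (3) `Cp X ≃ Cp X × Cz X ≃ Cp (X × OnePoint ℕ)` (CZE (1)); BRI. -/
def StbStmt : Prop := ∀ (X : Type) [TopologicalSpace X], Stb (Set.univ : Set X) → SStable X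

/-- **CLO** (easy).  l-embedded sets are closed.
PROOF. Suppose `x ∈ closure A`, `x ∉ A`, and let `d` be a metric: `f a = 1 / d (a, x)` is continuous on `A`, and `φ f` is continuous on `X`, equal to `f` on `A`: bounded near `x`, but `f` is not bounded near `x`. -/
def CloStmt : Prop := ∀ (X : Type) [TopologicalSpace X] [TopologicalSpace.MetrizableSpace X]
  (A : Set X), LEmb A → IsClosed A

/-- **CZD** (medium; uses DUG).  Null sequences on a closed subset.
PROOF. `X' = X × OnePoint ℕ` is metrizable, `A' = {y | y.1 ∈ A ∨ y.2 = ∞}` is closed.  For `F ∈ Cz A` let `F'` be the function on `A'` equal to `F` on `A × OnePoint ℕ` and 0 on `X × {∞}` (continuous: two closed sets, equal on the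
intersection).  `i F = e' F'` with `e' : Cp A' → Cp X'` from DUG: it vanishes on `X × {∞}`.  `p` = restriction to `A × OnePoint ℕ`. -/
def CzdStmt : Prop := ∀ (X : Type) [TopologicalSpace X] [TopologicalSpace.MetrizableSpace X]
  (A : Set X), IsClosed A → Compl ↥(Cz A) ↥(Cz X)

/-- **STL** (easy-medium; uses CLO CZD ALG CZE CPE BRI).  S-stable metrizable spaces are l-stable.
PROOF. Let `A` be l-embedded, so closed (CLO).  `E = Cp X`, `Z = Cz X`: `E ≃ E × Z` (S-stable, BRI, CZE (1)) `≃ Z` (CZE (2)).  CZD: `Compl (Cz A) Z`; CZE (2) for `A`: `Cz A ≃ Cz A × Cp A`; ALG (2) with `E = Z`, `F = Cz A`, `T = Cp A`: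
`Z ≃ Z × Cp A`.  So `Cp X ≃ Cp X × Cp A ≃ Cp (X ⊕ A)` (CPE (2)); BRI. -/
def StlStmt : Prop := ∀ (X : Type) [TopologicalSpace X] [TopologicalSpace.MetrizableSpace X],
  SStable X → LStable X

/-- **FLO** (medium-strong).  Flow boxes.
PROOF. Let `φ τ p ≠ p`; we can take `τ > 0` (replace `τ` by `-τ`: `φ (-τ) p = p` would give `p = φ τ p`).  `f : X → ℝ` continuous, `f p = 0`, `f (φ τ p) = 1`; `F x = ∫ u in 0..τ, f (φ u x)`, continuous.  `F (φ t x) = ∫ u in t..(t+τ), f (φ u x)`, so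
`t ↦ F (φ t x)` has the derivative `f (φ (t + τ) x) - f (φ t x)`, which is 1 at `t = 0`, `x = p`, so `≥ 1/2` for `|t| ≤ 2 δ`, `x ∈ W` (`W` an open neighbourhood of `p`).  `S = {x ∈ W' : F x = F p}` (`W'` a suitable closed neighbourhood of `p` in
`W`), `N` = the image of `b : S × [-δ, δ] → X`, `b (x, t) = φ t x`.  Injective: `φ t x = φ t' x'` gives `x' = φ (t - t') x`, `F x = F x'`, `|t - t'| ≤ 2 δ`, so `t = t'`.  The inverse is continuous: for `y = φ t x`, `y' = φ t' x'` near `y`: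
`x = φ (-t) y`, the function `t'' ↦ F (φ (-t'') y')` is strictly monotone where it matters, with slope `≤ -1/2`, so `|t - t'| ≤ 2 |F (φ (-t) y') - F (φ (-t) y)|`, small.  `N` is a neighbourhood of `p`: for `y` near `p` the intermediate
value theorem gives `t`, `|t| ≤ 2 |F y - F p|`, with `F (φ (-t) y) = F p`, and `φ (-t) y ∈ W'`.  `[-δ, δ] ≃ₜ unitInterval`. -/
def FloStmt : Prop := ∀ (X : Type) [TopologicalSpace X] [TopologicalSpace.MetrizableSpace X]
  (φ : ℝ → X → X), Continuous (fun q : ℝ × X => φ q.1 q.2) → (∀ x, φ 0 x = x) →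
  (∀ s t x, φ (s + t) x = φ s (φ t x)) → ∀ p : X, (∃ t, φ t p ≠ p) →
  ∃ N ∈ 𝓝 p, ∃ S : Set X, Nonempty (↥N ≃ₜ ↥S × unitInterval)

/-- **FIN** (assembly: helper18).  THE THEOREMS -/
def FinStmt : Prop :=
  (∀ (X : Type) [TopologicalSpace X] [TopologicalSpace.MetrizableSpace X],
    LocInt X → LStable X ∧ SStable X) ∧
  (∀ (X : Type) [TopologicalSpace X] [TopologicalSpace.MetrizableSpace X] (φ : ℝ → X → X),
    Continuous (fun q : ℝ × X => φ q.1 q.2) → (∀ x, φ 0 x = x) →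
    (∀ s t x, φ (s + t) x = φ s (φ t x)) → (∀ x, ∃ t, φ t x ≠ x) → LStable X ∧ SStable X) ∧
  ∀ (H : Type) [Group H] [TopologicalSpace H] [IsTopologicalGroup H]
    [TopologicalSpace.MetrizableSpace H] (γ : ℝ → H), Continuous γ →
    (∀ s t, γ (s + t) = γ s * γ t) → (∃ t, γ t ≠ 1) → LStable H ∧ SStable H

end Pool.Agent.LPR
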